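import Pool.Agent.H.MP_1195b1_lc.E

set_option autoImplicit false

namespace Pool.Agent.Results.MP_1195b1_lc.Poly
open Pool.Agent.Lib.CX

def SkewSupermodular {ι : Type} [DecidableEq ι] (S : Finset ι) (p : Finset ι → ℤ) : Prop :=
  ∀ X ⊆ S, ∀ Y ⊆ S, p X + p Y ≤ p (X ∩ Y) + p (X ∪ Y) ∨ p X + p Y ≤ p (X \ Y) + p (Y \ X)

/-- The requirements on an input. -/
structure Valid {ι : Type} [DecidableEq ι] (S : Finset ι) (m1 m2 n1 n2 : ℕ)
    (p1 p2 : Finset ι → ℤ) : Prop where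
  m1_pos : 0 < m1
  m2_pos : 0 < m2
  n1_pos : 0 < n1
  n2_pos : 0 < n2
  card : m1 * n1 + m2 * n2 = S.card
  skew1 : SkewSupermodular S p1
  skew2 : SkewSupermodular S p2
  bound : ∀ X ⊆ S, max (p1 X) (p2 X) ≤ min (X.card : ℤ) ((m1 + m2 : ℕ) : ℤ)

/-- A feasible partition exists: `A` is the set of the `m1` classes of size `n1`. -/
def Feasible {ι : Type} [DecidableEq ι] (S : Finset ι) (m1 m2 n1 n2 : ℕ)
    (p1 p2 : Finset ι → ℤ) : Prop :=
  ∃ P : Finpartition S, ∃ A ⊆ P.parts, A.card = m1 ∧ (P.parts \ A).card = m2 ∧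
    (∀ Y ∈ A, Y.card = n1) ∧ (∀ Y ∈ P.parts \ A, Y.card = n2) ∧
    ∀ X ⊆ S, max (p1 X) (p2 X) ≤ ((P.parts.filter (fun Y => (Y ∩ X).Nonempty)).card : ℤ)

open Pool.Agent.H.MP_1195b1_lc

theorem char {ι : Type} [DecidableEq ι] {S : Finset ι} {m1 m2 n1 n2 : ℕ} {p1 p2 : Finset ι → ℤ}
    (h : Valid S m1 m2 n1 n2 p1 p2) :
    (∀ i, Skew S (cond i p1 p2)) ∧ (∀ i, Bnd S (cond i p1 p2) (m1 + m2)) ∧
    (Feasible S m1 m2 n1 n2 p1 p2 ↔
      ∃ Z : Finset ι, Z.card = m1 * n1 ∧ ∀ i, Q S (cond i p1 p2) m1 m2 Z) := by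
  have hs : ∀ i, Skew S (cond i p1 p2) := fun i => by
    cases i
    · exact h.skew2
    · exact h.skew1
  have hb : ∀ i, Bnd S (cond i p1 p2) (m1 + m2) := fun i X hX => by
    have := h.bound X hX
    cases i <;> simp only [cond_true, cond_false] <;> omega
  refine ⟨hs, hb, Iff.trans ?_ (feas_iff h.n1_pos h.n2_pos h.card hs hb)⟩
  simp only [Feasible, Feas, Bool.forall_bool, cond_true, cond_false, max_le_iff, and_comm]

theorem result :
    (∀ (ι : Type) [DecidableEq ι] (S : Finset ι) (m1 m2 n1 n2 : ℕ) (p1 p2 : Finset ι → ℤ),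
      Valid S m1 m2 n1 n2 p1 p2 →
      (Feasible S m1 m2 n1 n2 p1 p2 ↔ ∃ Z ⊆ S, Z.card = m1 * n1 ∧ ∀ X ⊆ S,
        max (p1 X) (p2 X) ≤ (X ∩ Z).card + m2 ∧ max (p1 X) (p2 X) ≤ (X \ Z).card + m1)) ∧
    (∀ (α : Type) [Enc α] (N m1 m2 n1 n2 : α → ℕ) (p1 p2 : α → Finset ℕ → ℤ)
      (O : α × Bool × List ℕ × ℕ → Bool),
      (∀ a, Valid (Finset.range (N a)) (m1 a) (m2 a) (n1 a) (n2 a) (p1 a) (p2 a)) →
      PT (fun a => List.range (N a)) → PT m1 → PT m2 → PT n1 → PT O →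
      (∀ a b W t, O (a, b, W, t) = true ↔ ∀ X ⊆ Finset.range (N a),
        (if b then p1 a X else p2 a X) - ((X ∩ W.toFinset).card : ℤ) ≤ t) →
      InP (fun a => Feasible (Finset.range (N a)) (m1 a) (m2 a) (n1 a) (n2 a) (p1 a) (p2 a))) := by
  constructor
  · intro ι _ S m1 m2 n1 n2 p1 p2 h
    rw [(char h).2.2]
    have e : ∀ Z X : Finset ι, X ⊆ S → X ∩ (S \ Z) = X \ Z := fun Z X hX => by
      ext a; simp only [Finset.mem_inter, Finset.mem_sdiff]
      exact ⟨fun h => ⟨h.1, h.2.2⟩, fun h => ⟨h.1, hX h.1, h.2⟩⟩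
    constructor
    · rintro ⟨Z, h1, h2⟩
      refine ⟨Z, (h2 true).1, h1, fun X hX => ?_⟩
      have a1 := (h2 true).2.1 X hX
      have a2 := (h2 true).2.2 X hX
      have a3 := (h2 false).2.1 X hX
      have a4 := (h2 false).2.2 X hX
      rw [e Z X hX] at a2 a4
      simp only [cond_true, cond_false] at a1 a2 a3 a4
      omega
    · rintro ⟨Z, h0, h1, h2⟩
      refine ⟨Z, h1, fun i => ⟨h0, fun X hX => ?_, fun X hX => ?_⟩⟩
      · have := h2 X hX
        cases i <;> simp only [cond_true, cond_false] <;> omega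
      · have := h2 X hX
        rw [e Z X hX]
        cases i <;> simp only [cond_true, cond_false] <;> omega
  · intro α _ N m1 m2 n1 n2 p1 p2 O hv hN h1 h2 h3 hO hspec
    refine ⟨_, PT_answer (g := id) hO PT.id hN h1 h2 (h1.mul h3), fun a => ?_⟩
    obtain ⟨hs, hb, e⟩ := char (hv a)
    have e2 : (List.range (N a)).toFinset = Finset.range (N a) := List.toFinset_range _
    refine e.trans ?_
    rw [← e2]
    refine answer_iff List.nodup_range (fun i W t => ?_) (by rwa [e2]) (by rwa [e2])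
    rw [cc, id, hspec, e2]
    refine forall₂_congr (fun X _ => ?_)
    cases i <;> simp only [cond_true, cond_false, if_true, Bool.false_eq_true, if_false] <;> omega

end Pool.Agent.Results.MP_1195b1_lc.Poly
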